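import Pool.Agent.helper74.VD.SpecA3

/-!
# Project VD (MP_07c750_an), row AFRD: regularity of families, duality
-/

set_option autoImplicit false

open scoped ContDiff Topology InnerProductSpace ComplexConjugate ENNReal
open MeasureTheory Filter Set

namespace Pool.Agent.VD

open Pool.Agent.VQ (CH)

noncomputable section

/-- functions defined by pieces -/
lemma AFRD_cm {X E Γ : Type} [MeasurableSpace X] [MeasurableSpace E] [Countable Γ] (c : X → Γ)
    (hc : ∀ γ, MeasurableSet {x | c x = γ}) (h : X → E) (hh : Γ → X → E)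
    (hm : ∀ γ, Measurable (hh γ)) (he : ∀ x, h x = hh (c x) x) : Measurable h := by
  intro s hs
  have e : h ⁻¹' s = ⋃ γ : Γ, ({x | c x = γ} ∩ (hh γ) ⁻¹' s) := by
    ext x
    constructor
    · intro hx
      refine mem_iUnion.2 ⟨c x, rfl, ?_⟩
      show hh (c x) x ∈ s
      rw [← he x]
      exact hx
    · intro hx
      obtain ⟨γ, h1, h2⟩ := mem_iUnion.1 hx
      have h1' : c x = γ := h1
      show h x ∈ s
      rw [he x, h1']
      exact h2
  rw [e]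
  exact MeasurableSet.iUnion fun γ => (hc γ).inter (hm γ hs)

lemma AFRD_fst (d : ℕ) (Γ : Type) (S : Set Γ) : MeasurableSet {y : YS Γ d | y.1 ∈ S} := by
  have h : @Measurable (YS Γ d) Γ _ ⊤ (fun y => y.1) := @measurable_fst Γ (P d) ⊤ _
  exact h (show @MeasurableSet Γ ⊤ S from trivial)

lemma AFRD_snd (d : ℕ) (Γ : Type) : Measurable (fun y : YS Γ d => y.2) :=
  @measurable_snd Γ (P d) ⊤ _

lemma AFRD_one {d : ℕ} (Γ : Type) [Group Γ] {S : Set (YS Γ d)} (hS : MeasurableSet S) :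
    MeasurableSet {p : P d | (((1 : Γ), p) : YS Γ d) ∈ S} :=
  (@measurable_prodMk_left Γ (P d) ⊤ _ 1) hS

/-- kernels with the properties of the packets -/
structure AFRD_G {d : ℕ} (Γ : Type) [Group Γ] [MulAction Γ (V d)] (W : Set (YS Γ d)) (C m : ℝ)
    (g : YS Γ d → V d → ℂ) : Prop where
  meas : Measurable fun x : YS Γ d × V d => g x.1 x.2
  cz : ∀ y, Continuous (g y)
  bd : ∀ y z, ‖g y z‖ ≤ m
  supp : ∀ y z, g y z ≠ 0 → y ∈ W ∧ ‖y.1⁻¹ • z‖ ≤ C
  eqv : ∀ (γ : Γ) (y : YS Γ d) (z : V d), g (γ • y) (γ • z) = g y z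

section main

variable {d : ℕ} {Γ : Type} [Group Γ] [MulAction Γ (V d)] {K : Set (V d)} {C m : ℝ}
  {W : Set (YS Γ d)} {g : YS Γ d → V d → ℂ}

lemma AFRD_cont (h : FdK Γ K) (γ : Γ) : Continuous fun z : V d => γ • z := (h.smooth γ).continuous

/-- a compact set meets only finitely many translates of a compact set -/
lemma AFRD_fin (h : FdK Γ K) (a b : ℝ) : {γ : Γ | ∃ z : V d, ‖z‖ ≤ a ∧ ‖γ⁻¹ • z‖ ≤ b}.Finite := by
  have h1 := h.proper (Metric.closedBall (0 : V d) (max a b)) (isCompact_closedBall _ _)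
  refine h1.subset ?_
  rintro γ ⟨z, hz1, hz2⟩
  refine ⟨γ⁻¹ • z, ?_, ?_⟩
  · rw [mem_closedBall_zero_iff]
    exact hz2.trans (le_max_right _ _)
  · rw [smul_inv_smul, mem_closedBall_zero_iff]
    exact hz1.trans (le_max_left _ _)

/-- finitely many translates of a ball are bounded -/
lemma AFRD_ball (h : FdK Γ K) (S : Finset Γ) (b : ℝ) : ∃ c : ℝ, ∀ γ ∈ S, ∀ w : V d, ‖w‖ ≤ b → ‖γ • w‖ ≤ c := by
  have h1 : ∀ γ : Γ, ∃ c : ℝ, ∀ w : V d, ‖w‖ ≤ b → ‖γ • w‖ ≤ c := by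
    intro γ
    obtain ⟨c, hc⟩ := (isCompact_closedBall (0 : V d) b).exists_bound_of_continuousOn (AFRD_cont h γ).continuousOn
    exact ⟨c, fun w hw => hc w (mem_closedBall_zero_iff.2 hw)⟩
  choose c hc using h1
  refine ⟨∑ γ ∈ S, |c γ|, fun γ hγ w hw => ?_⟩
  calc ‖γ • w‖ ≤ c γ := hc γ w hw
    _ ≤ |c γ| := le_abs_self _
    _ ≤ ∑ γ ∈ S, |c γ| := Finset.single_le_sum (f := fun γ => |c γ|) (fun _ _ => abs_nonneg _) hγ

/-- invariant functions are bounded -/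
lemma AFRD_bdd {Λ : Subgroup Γ} {F : Set (V d)} (hF : ∀ z : V d, ∃! γ : Λ, (γ : Γ) • z ∈ F) {φ : V d → ℂ}
    (hφ : FH Λ F φ) : ∃ M : ℝ, 0 ≤ M ∧ ∀ z, ‖φ z‖ ≤ M := by
  obtain ⟨b, hb⟩ := hφ.supp
  obtain ⟨M, hM⟩ := (isCompact_closedBall (0 : V d) b).exists_bound_of_continuousOn hφ.cont.continuousOn
  refine ⟨max M 0, le_max_right _ _, fun z => ?_⟩
  obtain ⟨γ, hγ, -⟩ := hF z
  have hγ' : (γ : Γ) • z ∈ F := hγ
  rw [← hφ.inv γ γ.2 z]
  by_cases h0 : φ ((γ : Γ) • z) = 0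
  · rw [h0, norm_zero]
    exact le_max_right _ _
  · exact (hM _ (mem_closedBall_zero_iff.2 (hb _ hγ' h0))).trans (le_max_left _ _)

lemma AFRD_m (hG : AFRD_G Γ W C m g) : 0 ≤ m := (norm_nonneg _).trans (hG.bd (1, 0) 0)

lemma AFRD_emb (hFd : FdK Γ K) (γ : Γ) : MeasurableEmbedding fun x : V d => γ • x :=
  ({ toFun := fun x => γ • x
     invFun := fun x => γ⁻¹ • x
     left_inv := fun x => inv_smul_smul γ x
     right_inv := fun x => smul_inv_smul γ x
     continuous_toFun := AFRD_cont hFd γ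
     continuous_invFun := AFRD_cont hFd γ⁻¹ } : V d ≃ₜ V d).measurableEmbedding

/-- `DT` in the two settings, finite sets of charts -/
lemma AFRD_dich {Λ : Subgroup Γ} {F : Set (V d)} {T : Set Γ} (hD : Dm Λ F T) :
    ((∃ b : ℝ, ∀ z ∈ F, ‖z‖ ≤ b) ∧ T = {1}) ∨ (F = univ ∧ T = univ) := by
  rcases hD with ⟨-, h, hT⟩ | ⟨-, h, hT⟩
  · exact Or.inl ⟨h.bdd, hT⟩
  · exact Or.inr ⟨h, hT⟩

/-- the analysis -/
lemma AFRD_Q (G : V d → V d →L[ℝ] V d) (hFd : FdK Γ K) (hσ : SigmaFinite (mv G))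
    (hcomp : ∀ S : Set (V d), IsCompact S → mv G S < ⊤)
    (hpres : ∀ γ : Γ, MeasurePreserving (fun x : V d => γ • x) (mv G) (mv G)) {Λ : Subgroup Γ} {F : Set (V d)}
    {T : Set Γ} (hD : Dm Λ F T) (hF : ∀ z : V d, ∃! γ : Λ, (γ : Γ) • z ∈ F) (hG : AFRD_G Γ W C m g)
    {φ : V d → ℂ} (hφ : FH Λ F φ) : FP Λ T (fun y => ∫ z, φ z * conj (g y z) ∂mv G) := by
  have := hσ
  obtain ⟨M, hM0, hM⟩ := AFRD_bdd hF hφ
  have hm0 := AFRD_m hG
  refine ⟨?_, ?_, ?_, ?_⟩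
  · have h1 : Measurable fun x : YS Γ d × V d => φ x.2 * conj (g x.1 x.2) :=
      (hφ.cont.measurable.comp measurable_snd).mul (Complex.continuous_conj.measurable.comp hG.meas)
    exact (h1.stronglyMeasurable.integral_prod_right (ν := mv G)).measurable
  · refine ⟨M * m * (mv G).real (Metric.closedBall (0 : V d) C), fun y => ?_⟩
    have h1 := (hpres y.1).integral_comp (AFRD_emb hFd y.1) (fun z => φ z * conj (g y z))
    show ‖∫ z, φ z * conj (g y z) ∂mv G‖ ≤ _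
    rw [← h1]
    have h2 : ∫ w in Metric.closedBall (0 : V d) C, φ (y.1 • w) * conj (g y (y.1 • w)) ∂mv G =
        ∫ w, φ (y.1 • w) * conj (g y (y.1 • w)) ∂mv G := by
      refine setIntegral_eq_integral_of_forall_compl_eq_zero fun w hw => ?_
      by_cases h0 : g y (y.1 • w) = 0
      · rw [h0, map_zero, mul_zero]
      · have h3 := (hG.supp _ _ h0).2
        rw [inv_smul_smul] at h3
        exact absurd (mem_closedBall_zero_iff.2 h3) hw
    rw [← h2]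
    refine norm_setIntegral_le_of_norm_le_const (hcomp _ (isCompact_closedBall _ _)) fun w _ => ?_
    rw [norm_mul, RCLike.norm_conj]
    exact mul_le_mul (hM _) (hG.bd _ _) (norm_nonneg _) hM0
  · intro γ hγ y
    have h1 := (hpres γ).integral_comp (AFRD_emb hFd γ) (fun z => φ z * conj (g (γ • y) z))
    show ∫ z, φ z * conj (g (γ • y) z) ∂mv G = ∫ z, φ z * conj (g y z) ∂mv G
    rw [← h1]
    refine integral_congr_ae (Eventually.of_forall fun z => ?_)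
    show φ (γ • z) * conj (g (γ • y) (γ • z)) = φ z * conj (g y z)
    rw [hφ.inv γ hγ, hG.eqv]
  · rcases AFRD_dich hD with ⟨-, hT⟩ | ⟨hFu, -⟩
    · refine ⟨{1}, fun y hy _ => ?_⟩
      rw [hT] at hy
      exact Finset.mem_singleton.2 hy
    · obtain ⟨b, hb⟩ := hφ.supp
      refine ⟨(AFRD_fin hFd b C).toFinset, fun y _ hy => ?_⟩
      rw [Set.Finite.mem_toFinset]
      have h1 : ∃ z, φ z * conj (g y z) ≠ 0 := by
        by_contra h0
        push Not at h0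
        apply hy
        show ∫ z, φ z * conj (g y z) ∂mv G = 0
        rw [integral_congr_ae (Eventually.of_forall h0), integral_zero]
      obtain ⟨z, hz⟩ := h1
      refine ⟨z, hb z (by rw [hFu]; trivial) (left_ne_zero_of_mul hz), ?_⟩
      exact (hG.supp y z (fun h0 => hz (by rw [h0, map_zero, mul_zero]))).2

omit [Group Γ] [MulAction Γ (V d)] in
/-- the measure of finitely many charts -/
lemma AFRD_meas (h4 : ∀ f : YS Γ d → ENNReal, Measurable f → ∫⁻ y, f y ∂mY Γ d = ∑' γ : Γ, ∫⁻ p : P d, f (γ, p))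
    {W0 : Set (P d)} (hW0 : MeasurableSet W0) (hfin : volume W0 < ⊤) (S : Set Γ) (hS : S.Finite) :
    MeasurableSet {y : YS Γ d | y.1 ∈ S ∧ y.2 ∈ W0} ∧ mY Γ d {y : YS Γ d | y.1 ∈ S ∧ y.2 ∈ W0} < ⊤ := by
  have hms : MeasurableSet {y : YS Γ d | y.1 ∈ S ∧ y.2 ∈ W0} :=
    (AFRD_fst d Γ S).inter (AFRD_snd d Γ hW0)
  refine ⟨hms, ?_⟩
  have hle : ∀ y : YS Γ d, {y : YS Γ d | y.1 ∈ S ∧ y.2 ∈ W0}.indicator (1 : YS Γ d → ENNReal) y ≤
      W0.indicator (1 : P d → ENNReal) y.2 := by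
    intro y
    by_cases hy : y ∈ {y : YS Γ d | y.1 ∈ S ∧ y.2 ∈ W0}
    · rw [Set.indicator_of_mem hy, Set.indicator_of_mem hy.2]
      exact le_refl _
    · rw [Set.indicator_of_notMem hy]
      exact bot_le
  have hz : ∀ y : YS Γ d, y.1 ∉ S → {y : YS Γ d | y.1 ∈ S ∧ y.2 ∈ W0}.indicator (1 : YS Γ d → ENNReal) y = 0 := by
    intro y hy
    exact Set.indicator_of_notMem (fun h => hy h.1) _
  rw [← lintegral_indicator_one hms, h4 _ (measurable_one.indicator hms)]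
  have h5 : ∀ γ : Γ, γ ∉ hS.toFinset → ∫⁻ p : P d, {y : YS Γ d | y.1 ∈ S ∧ y.2 ∈ W0}.indicator (1 : YS Γ d → ENNReal) (γ, p) = 0 := by
    intro γ hγ
    have h6 : ∀ p : P d, {y : YS Γ d | y.1 ∈ S ∧ y.2 ∈ W0}.indicator (1 : YS Γ d → ENNReal) (γ, p) = 0 :=
      fun p => hz (γ, p) (fun h => hγ ((Set.Finite.mem_toFinset hS).2 h))
    rw [lintegral_congr h6, lintegral_zero]
  rw [tsum_eq_sum (fun γ hγ => h5 γ hγ)]
  refine ENNReal.sum_lt_top.2 fun γ _ => ?_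
  calc ∫⁻ p : P d, {y : YS Γ d | y.1 ∈ S ∧ y.2 ∈ W0}.indicator (1 : YS Γ d → ENNReal) (γ, p)
      ≤ ∫⁻ p : P d, W0.indicator 1 p := lintegral_mono fun p => hle (γ, p)
    _ = volume W0 := lintegral_indicator_one hW0
    _ < ⊤ := hfin

omit [Group Γ] [MulAction Γ (V d)] in
lemma AFRD_meas' (h4 : ∀ f : YS Γ d → ENNReal, Measurable f → ∫⁻ y, f y ∂mY Γ d = ∑' γ : Γ, ∫⁻ p : P d, f (γ, p))
    {W0 : Set (P d)} (hW0 : MeasurableSet W0) (hfin : volume W0 < ⊤) (S : Set Γ) (hS : S.Finite) :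
    ∃ A : Set (YS Γ d), MeasurableSet A ∧ mY Γ d A < ⊤ ∧ ∀ y : YS Γ d, y.1 ∈ S → y.2 ∈ W0 → y ∈ A :=
  ⟨_, (AFRD_meas h4 hW0 hfin S hS).1, (AFRD_meas h4 hW0 hfin S hS).2, fun _ h1 h2 => ⟨h1, h2⟩⟩

/-- the synthesis is continuous -/
lemma AFRD_Sc (hFd : FdK Γ K)
    (h4 : ∀ f : YS Γ d → ENNReal, Measurable f → ∫⁻ y, f y ∂mY Γ d = ∑' γ : Γ, ∫⁻ p : P d, f (γ, p))
    {W0 : Set (P d)} (hW0 : MeasurableSet W0) (hfin : volume W0 < ⊤) (hW : ∀ y ∈ W, y.2 ∈ W0)
    (hG : AFRD_G Γ W C m g) {v : YS Γ d → ℂ} (hv : Measurable v) {b : ℝ} (hb : ∀ y, ‖v y‖ ≤ b) :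
    Continuous fun z => ∫ y, v y * g y z ∂mY Γ d := by
  have hb0 : 0 ≤ b := (norm_nonneg _).trans (hb (1, 0))
  have hm0 := AFRD_m hG
  rw [continuous_iff_continuousAt]
  intro z₀
  have hSf := AFRD_fin hFd (‖z₀‖ + 1) C
  obtain ⟨A, hms, hmf, hA⟩ := AFRD_meas' h4 hW0 hfin _ hSf
  refine continuousAt_of_dominated (bound := A.indicator fun _ => b * m) ?_ ?_ ?_ ?_
  · refine Eventually.of_forall fun z => ?_
    have h1 : Measurable fun y : YS Γ d => g y z := hG.meas.comp measurable_prodMk_right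
    exact (hv.mul h1).aestronglyMeasurable
  · filter_upwards [Metric.ball_mem_nhds z₀ one_pos] with z hz
    refine Eventually.of_forall fun y => ?_
    by_cases h0 : g y z = 0
    · rw [h0, mul_zero, norm_zero]
      exact Set.indicator_nonneg (fun _ _ => mul_nonneg hb0 hm0) y
    · obtain ⟨h2, h3⟩ := hG.supp y z h0
      have h5 : y ∈ A := by
        refine hA y ⟨z, ?_, h3⟩ (hW y h2)
        have h6 : ‖z - z₀‖ < 1 := by
          rw [← dist_eq_norm]
          exact hz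
        have h7 := norm_le_insert' z z₀
        linarith
      rw [Set.indicator_of_mem h5, norm_mul]
      exact mul_le_mul (hb y) (hG.bd y z) (norm_nonneg _) hb0
  · rw [integrable_indicator_iff hms]
    exact integrableOn_const hmf.ne
  · refine Eventually.of_forall fun y => ?_
    exact (continuous_const.mul (hG.cz y)).continuousAt

/-- the synthesis -/
lemma AFRD_S (hFd : FdK Γ K)
    (h2 : ∀ γ : Γ, MeasurePreserving (fun y : YS Γ d => γ • y) (mY Γ d) (mY Γ d))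
    (h4 : ∀ f : YS Γ d → ENNReal, Measurable f → ∫⁻ y, f y ∂mY Γ d = ∑' γ : Γ, ∫⁻ p : P d, f (γ, p))
    {W0 : Set (P d)} (hW0 : MeasurableSet W0) (hfin : volume W0 < ⊤) (hW : ∀ y ∈ W, y.2 ∈ W0)
    {Λ : Subgroup Γ} {F : Set (V d)} {T : Set Γ} (hD : Dm Λ F T) (hG : AFRD_G Γ W C m g) {v : YS Γ d → ℂ}
    (hv : FP Λ T v) : FH Λ F (fun z => ∫ y, v y * g y z ∂mY Γ d) := by
  obtain ⟨b, hb⟩ := hv.bdd
  refine ⟨AFRD_Sc hFd h4 hW0 hfin hW hG hv.meas hb, fun γ hγ z => ?_, ?_⟩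
  · have hemb : MeasurableEmbedding fun y : YS Γ d => γ • y :=
      ({ toFun := fun y => γ • y
         invFun := fun y => γ⁻¹ • y
         left_inv := fun y => inv_smul_smul γ y
         right_inv := fun y => smul_inv_smul γ y
         measurable_toFun := (h2 γ).measurable
         measurable_invFun := (h2 γ⁻¹).measurable } : YS Γ d ≃ᵐ YS Γ d).measurableEmbedding
    have h3 := (h2 γ).integral_comp hemb (fun y => v y * g y (γ • z))
    show ∫ y, v y * g y (γ • z) ∂mY Γ d = ∫ y, v y * g y z ∂mY Γ d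
    rw [← h3]
    refine integral_congr_ae (Eventually.of_forall fun y => ?_)
    show v (γ • y) * g (γ • y) (γ • z) = v y * g y z
    rw [hv.inv γ hγ, hG.eqv]
  · rcases AFRD_dich hD with ⟨⟨b', hb'⟩, -⟩ | ⟨-, hT⟩
    · exact ⟨b', fun z hz _ => hb' z hz⟩
    · obtain ⟨S, hS⟩ := hv.supp
      obtain ⟨c, hc⟩ := AFRD_ball hFd S C
      refine ⟨c, fun z _ hz => ?_⟩
      have h1 : ∃ y, v y * g y z ≠ 0 := by
        by_contra h0
        push Not at h0
        apply hz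
        show ∫ y, v y * g y z ∂mY Γ d = 0
        rw [integral_congr_ae (Eventually.of_forall h0), integral_zero]
      obtain ⟨y, hy⟩ := h1
      have h5 := hS y (by rw [hT]; trivial) (left_ne_zero_of_mul hy)
      have h6 := hc _ h5 _ (hG.supp y z (right_ne_zero_of_mul hy)).2
      rwa [smul_inv_smul] at h6

/-- duality -/
lemma AFRD_adj (G : V d → V d →L[ℝ] V d) (hFd : FdK Γ K) (hcount : Countable Γ) (hσ : SigmaFinite (mv G))
    (hcomp : ∀ S : Set (V d), IsCompact S → mv G S < ⊤)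
    (hpres : ∀ γ : Γ, MeasurePreserving (fun x : V d => γ • x) (mv G) (mv G))
    (hσ' : SigmaFinite (mY Γ d))
    (h2 : ∀ γ : Γ, MeasurePreserving (fun y : YS Γ d => γ • y) (mY Γ d) (mY Γ d))
    (h4 : ∀ f : YS Γ d → ENNReal, Measurable f → ∫⁻ y, f y ∂mY Γ d = ∑' γ : Γ, ∫⁻ p : P d, f (γ, p))
    {W0 : Set (P d)} (hW0 : MeasurableSet W0) (hfin : volume W0 < ⊤) (hW : ∀ y ∈ W, y.2 ∈ W0)
    {Λ : Subgroup Γ} {F : Set (V d)} {T : Set Γ} (hFm : MeasurableSet F)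
    (hTm : MeasurableSet (DT d T)) (hF : ∀ z : V d, ∃! γ : Λ, (γ : Γ) • z ∈ F)
    (hTu : ∀ y : YS Γ d, ∃! γ : Λ, (γ : Γ) • y ∈ DT d T) (hG : AFRD_G Γ W C m g)
    {φ : V d → ℂ} (hφ : FH Λ F φ) {v : YS Γ d → ℂ} (hv : FP Λ T v) :
    ∫ y in DT d T, (∫ z, φ z * conj (g y z) ∂mv G) * conj (v y) ∂mY Γ d =
      ∫ z in F, φ z * conj (∫ y, v y * g y z ∂mY Γ d) ∂mv G := by
  have := hσ
  have := hσ'
  have := hcount
  obtain ⟨M, hM0, hM⟩ := AFRD_bdd hF hφ
  have hm0 := AFRD_m hG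
  obtain ⟨b, hb⟩ := hv.bdd
  obtain ⟨S, hS⟩ := hv.supp
  have hb0 : 0 ≤ b := (norm_nonneg _).trans (hb (1, 0))
  obtain ⟨c, hc⟩ := AFRD_ball hFd S C
  obtain ⟨A, hms, hmf, hA⟩ := AFRD_meas' h4 hW0 hfin (S : Set Γ) S.finite_toSet
  let K' : YS Γ d × V d → ℂ := fun x => φ x.2 * conj (g x.1 x.2) * conj (v x.1)
  have hK : ∀ x, K' x = φ x.2 * conj (g x.1 x.2) * conj (v x.1) := fun _ => rfl
  have hKm : Measurable K' :=
    ((hφ.cont.measurable.comp measurable_snd).mul (Complex.continuous_conj.measurable.comp hG.meas)).mul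
      (Complex.continuous_conj.measurable.comp (hv.meas.comp measurable_fst))
  have hKi : ∀ (γ : Λ) x, K' (γ • x) = K' x := by
    intro γ x
    show φ ((γ : Γ) • x.2) * conj (g ((γ : Γ) • x.1) ((γ : Γ) • x.2)) * conj (v ((γ : Γ) • x.1)) = _
    rw [hφ.inv γ γ.2, hG.eqv, hv.inv γ γ.2]
  have hpr : ∀ γ : Λ, MeasurePreserving (fun x : YS Γ d × V d => γ • x) ((mY Γ d).prod (mv G)) ((mY Γ d).prod (mv G)) := fun γ =>
    (h2 (γ : Γ)).prod (hpres (γ : Γ))
  have : MeasurableConstSMul Λ (YS Γ d × V d) := ⟨fun γ => (hpr γ).measurable⟩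
  have : SMulInvariantMeasure Λ (YS Γ d × V d) ((mY Γ d).prod (mv G)) := ⟨fun γ s hs => (hpr γ).measure_preimage hs.nullMeasurableSet⟩
  have hSm : MeasurableSet (DT d T ×ˢ (univ : Set (V d))) := hTm.prod MeasurableSet.univ
  have hSm2 : MeasurableSet ((univ : Set (YS Γ d)) ×ˢ F) := MeasurableSet.univ.prod hFm
  have hfS : IsFundamentalDomain Λ (DT d T ×ˢ (univ : Set (V d))) ((mY Γ d).prod (mv G)) := by
    refine IsFundamentalDomain.mk' hSm.nullMeasurableSet fun x => ?_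
    obtain ⟨γ, hγ, hu⟩ := hTu x.1
    exact ⟨γ, ⟨hγ, trivial⟩, fun γ' hγ' => hu γ' hγ'.1⟩
  have hfT : IsFundamentalDomain Λ ((univ : Set (YS Γ d)) ×ˢ F) ((mY Γ d).prod (mv G)) := by
    refine IsFundamentalDomain.mk' hSm2.nullMeasurableSet fun x => ?_
    obtain ⟨γ, hγ, hu⟩ := hF x.2
    exact ⟨γ, ⟨trivial, hγ⟩, fun γ' hγ' => hu γ' hγ'.2⟩
  have hint : IntegrableOn K' (DT d T ×ˢ (univ : Set (V d))) ((mY Γ d).prod (mv G)) := by
    have hms2 : MeasurableSet (A ×ˢ Metric.closedBall (0 : V d) c) := hms.prod measurableSet_closedBall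
    have h1 : Integrable ((A ×ˢ Metric.closedBall (0 : V d) c).indicator fun _ => M * m * b)
        (((mY Γ d).prod (mv G)).restrict (DT d T ×ˢ (univ : Set (V d)))) := by
      refine Integrable.mono_measure ?_ Measure.restrict_le_self
      rw [integrable_indicator_iff hms2]
      refine integrableOn_const ?_
      rw [Measure.prod_prod]
      exact ENNReal.mul_ne_top hmf.ne (hcomp _ (isCompact_closedBall _ _)).ne
    refine h1.mono' hKm.aestronglyMeasurable ?_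
    refine (ae_restrict_iff' hSm).2 (Eventually.of_forall fun x hx => ?_)
    have hx1 : x.1.1 ∈ T := hx.1
    by_cases h0 : K' x = 0
    · rw [h0, norm_zero]
      exact Set.indicator_nonneg (fun _ _ => mul_nonneg (mul_nonneg hM0 hm0) hb0) x
    · rw [hK] at h0
      have h5 : v x.1 ≠ 0 := fun h => h0 (by rw [h, map_zero, mul_zero])
      have h3 : g x.1 x.2 ≠ 0 := fun h => h0 (by rw [h, map_zero, mul_zero, zero_mul])
      have h6 := hS x.1 hx1 h5
      obtain ⟨h7, h8⟩ := hG.supp _ _ h3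
      have h9 := hc _ h6 _ h8
      rw [smul_inv_smul] at h9
      have h10 : x ∈ A ×ˢ Metric.closedBall (0 : V d) c :=
        ⟨hA x.1 h6 (hW _ h7), mem_closedBall_zero_iff.2 h9⟩
      rw [Set.indicator_of_mem h10, hK, norm_mul, norm_mul, RCLike.norm_conj, RCLike.norm_conj]
      exact mul_le_mul (mul_le_mul (hM _) (hG.bd _ _) (norm_nonneg _) hM0) (hb _) (norm_nonneg _) (mul_nonneg hM0 hm0)
  have hint2 : IntegrableOn K' ((univ : Set (YS Γ d)) ×ˢ F) ((mY Γ d).prod (mv G)) := (hfS.integrableOn_iff hfT hKi).1 hint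
  have key := hfS.setIntegral_eq hfT hKi
  have hmS : ((mY Γ d).prod (mv G)).restrict (DT d T ×ˢ (univ : Set (V d))) = ((mY Γ d).restrict (DT d T)).prod (mv G) := by
    rw [← Measure.prod_restrict, Measure.restrict_univ]
  have hmT : ((mY Γ d).prod (mv G)).restrict ((univ : Set (YS Γ d)) ×ˢ F) = (mY Γ d).prod ((mv G).restrict F) := by
    rw [← Measure.prod_restrict, Measure.restrict_univ]
  rw [IntegrableOn, hmS] at hint
  rw [IntegrableOn, hmT] at hint2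
  rw [hmS, hmT, integral_prod _ hint, integral_prod_symm _ hint2] at key
  have e1 : ∀ y, ∫ z, K' (y, z) ∂mv G = (∫ z, φ z * conj (g y z) ∂mv G) * conj (v y) := by
    intro y
    rw [← integral_mul_const]
  have e2 : ∀ z, ∫ y, K' (y, z) ∂mY Γ d = φ z * conj (∫ y, v y * g y z ∂mY Γ d) := by
    intro z
    rw [← integral_conj, ← integral_const_mul]
    refine integral_congr_ae (Eventually.of_forall fun y => ?_)
    show φ z * conj (g y z) * conj (v y) = φ z * conj (v y * g y z)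
    rw [map_mul]
    ring
  calc ∫ y in DT d T, (∫ z, φ z * conj (g y z) ∂mv G) * conj (v y) ∂mY Γ d = ∫ y in DT d T, (∫ z, K' (y, z) ∂mv G) ∂mY Γ d :=
        integral_congr_ae (Eventually.of_forall fun y => (e1 y).symm)
    _ = ∫ z in F, ∫ y, K' (y, z) ∂mY Γ d ∂mv G := key
    _ = ∫ z in F, φ z * conj (∫ y, v y * g y z ∂mY Γ d) ∂mv G := integral_congr_ae (Eventually.of_forall fun z => e2 z)

end main

theorem AFRD_proof (hAMVI : AMVI_stmt) (hADMD : ADMD_stmt) (hACNF : ACNF_stmt) : AFRD_stmt := by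
  intro d Γ _ _ K k B r0 hFd
  obtain ⟨C0, hC0, hcnf⟩ := hACNF d Γ K k B r0 1 hFd
  refine ⟨max 16 (C0 + 1), (by norm_num : (1 : ℝ) ≤ 16).trans (le_max_left _ _), ?_⟩
  intro Kd η m R t G Φ f hR hO hη hη1 hm ht hfa
  have hR16 : (16 : ℝ) ≤ R := (le_max_left _ _).trans hR
  have hRpos : 0 < R := by linarith
  obtain ⟨hcount, -, -, hσ, hcomp, hpres, -, -, -⟩ := hAMVI d Γ K k B G hFd hO.cls
  obtain ⟨hσ', hprY, -, h4, hGWs, hDm⟩ := hADMD d Γ K k B G hFd hO.cls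
  obtain ⟨hGWm, hGWi, hGWv⟩ := hGWs r0 2 R
  have hA : ∀ y ∈ GW Γ G r0 2 R, ∀ z, ‖pF f y z‖ ≤ m ∧ (pF f y z ≠ 0 → ‖y.1⁻¹ • z‖ ≤ max 16 (C0 + 1) ∧ ‖y.1⁻¹ • z - (Φ t y.2).1‖ ≤ R ^ (-(1 / 2) + η)) := by
    intro y hy z
    obtain ⟨A, -, hA1, hA2, hA3⟩ := hfa.pk y hy
    have h1 : pF f y z = Complex.exp (((R * ⟪(Φ t y.2).2, y.1⁻¹ • z - (Φ t y.2).1⟫_ℝ : ℝ) : ℂ) * Complex.I) * A (y.1⁻¹ • z - (Φ t y.2).1) := hA3 _
    constructor
    · rw [h1, norm_mul, Complex.norm_exp_ofReal_mul_I, one_mul]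
      have h2 := hA2 0 (Nat.zero_le _) (y.1⁻¹ • z - (Φ t y.2).1)
      rwa [norm_iteratedFDeriv_zero, pow_zero, mul_one] at h2
    · intro h0
      rw [h1] at h0
      have h2 := hA1 _ (right_ne_zero_of_mul h0)
      refine ⟨?_, h2⟩
      have h3 : R ^ (-(1 / 2) + η) ≤ 1 := Real.rpow_le_one_of_one_le_of_nonpos (by linarith) (by linarith)
      have h5 : R ^ (-(1 / 4) : ℝ) ≤ 1 / 2 := by
        calc R ^ (-(1 / 4) : ℝ) ≤ (16 : ℝ) ^ (-(1 / 4) : ℝ) := Real.rpow_le_rpow_of_nonpos (by norm_num) hR16 (by norm_num)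
          _ = 1 / 2 := by
            rw [show (16 : ℝ) = 2 ^ (4 : ℝ) by norm_num, ← Real.rpow_mul (by norm_num)]
            norm_num
      have h6 : Ham G y.2 ≤ 2 := by
        have h7 : |Ham G y.2 - 1 / 2| ≤ 2 * R ^ (-(1 / 4) : ℝ) := hy.2
        have h8 := (abs_le.1 h7).2
        linarith
      have h9 := (hcnf G Φ hO y.2 t hy.1 h6 ht).1
      have h10 : ‖y.1⁻¹ • z‖ ≤ ‖(Φ t y.2).1‖ + ‖y.1⁻¹ • z - (Φ t y.2).1‖ := norm_le_insert' _ _
      have h11 : C0 + 1 ≤ max 16 (C0 + 1) := le_max_right _ _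
      linarith
  have hB : ∀ (γ : Γ) (y : YS Γ d) (z : V d), pF f (γ • y) (γ • z) = pF f y z := by
    intro γ y z
    show f (γ • y) ((γ * y.1)⁻¹ • (γ • z)) = f y (y.1⁻¹ • z)
    rw [hfa.inv, mul_inv_rev, mul_smul, inv_smul_smul]
  refine ⟨hA, hB, ?_⟩
  intro Λ F T hD
  obtain ⟨hFm, hTm, hF, hTu⟩ := hDm Λ F T hD
  have := hσ
  have := hcount
  -- the window
  have hW0 : MeasurableSet {p : P d | ‖p.1‖ ≤ r0 ∧ |Ep G p| ≤ 2 * R ^ (-(1 / 4) : ℝ)} := AFRD_one Γ hGWm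
  -- the kernel
  obtain ⟨g, hg⟩ : ∃ g : YS Γ d → V d → ℂ, ∀ y z, g y z = (GW Γ G r0 2 R).indicator (fun y => pF f y z) y := ⟨_, fun _ _ => rfl⟩
  have hg1 : ∀ y ∈ GW Γ G r0 2 R, ∀ z, g y z = pF f y z := by
    intro y hy z
    rw [hg, Set.indicator_of_mem hy]
  have hg0 : ∀ y, y ∉ GW Γ G r0 2 R → ∀ z, g y z = 0 := by
    intro y hy z
    rw [hg, Set.indicator_of_notMem hy]
  have hG : AFRD_G Γ (GW Γ G r0 2 R) (max 16 (C0 + 1)) m g := by
    refine ⟨?_, ?_, ?_, ?_, ?_⟩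
    · refine AFRD_cm (fun x : YS Γ d × V d => x.1.1) (fun γ => ?_) _
        (fun γ => {x : YS Γ d × V d | x.1 ∈ GW Γ G r0 2 R}.indicator fun x => f ((γ, x.1.2) : YS Γ d) (γ⁻¹ • x.2)) (fun γ => ?_) ?_
      · exact (measurable_fst : Measurable (Prod.fst : YS Γ d × V d → YS Γ d)) (AFRD_fst d Γ {γ})
      · refine Measurable.indicator ?_ ((measurable_fst : Measurable (Prod.fst : YS Γ d × V d → YS Γ d)) hGWm)
        have h1 : Measurable fun x : YS Γ d × V d => ((x.1.2, γ⁻¹ • x.2) : P d × V d) :=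
          ((AFRD_snd d Γ).comp measurable_fst).prodMk ((AFRD_cont hFd γ⁻¹).measurable.comp measurable_snd)
        exact (hfa.cont γ).measurable.comp h1
      · intro x
        by_cases hx : x.1 ∈ GW Γ G r0 2 R
        · have h1 : x ∈ {x : YS Γ d × V d | x.1 ∈ GW Γ G r0 2 R} := hx
          rw [hg1 _ hx, Set.indicator_of_mem h1]
          rfl
        · have h1 : x ∉ {x : YS Γ d × V d | x.1 ∈ GW Γ G r0 2 R} := hx
          rw [hg0 _ hx, Set.indicator_of_notMem h1]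
    · intro y
      by_cases hy : y ∈ GW Γ G r0 2 R
      · have h1 : g y = fun z => f ((y.1, y.2) : YS Γ d) (y.1⁻¹ • z) := by
          funext z
          exact hg1 y hy z
        rw [h1]
        exact (hfa.cont y.1).comp (continuous_const.prodMk (AFRD_cont hFd y.1⁻¹))
      · have h1 : g y = fun _ => 0 := by
          funext z
          exact hg0 y hy z
        rw [h1]
        exact continuous_const
    · intro y z
      by_cases hy : y ∈ GW Γ G r0 2 R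
      · rw [hg1 y hy]
        exact (hA y hy z).1
      · rw [hg0 y hy, norm_zero]
        exact hm
    · intro y z h0
      by_cases hy : y ∈ GW Γ G r0 2 R
      · rw [hg1 y hy] at h0
        exact ⟨hy, ((hA y hy z).2 h0).1⟩
      · exact absurd (hg0 y hy z) h0
    · intro γ y z
      by_cases hy : y ∈ GW Γ G r0 2 R
      · rw [hg1 y hy, hg1 _ ((hGWi γ y).2 hy), hB]
      · rw [hg0 y hy, hg0 _ (fun h => hy ((hGWi γ y).1 h))]
  have hsF : ∀ v : YS Γ d → ℂ, sF G r0 R f v = fun z => ∫ y, v y * g y z ∂mY Γ d := by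
    intro v
    funext z
    have h1 : ∫ y in GW Γ G r0 2 R, v y * g y z ∂mY Γ d = ∫ y, v y * g y z ∂mY Γ d :=
      setIntegral_eq_integral_of_forall_compl_eq_zero fun y hy => by rw [hg0 y hy, mul_zero]
    rw [← h1]
    show ∫ y in GW Γ G r0 2 R, v y * pF f y z ∂mY Γ d = _
    refine setIntegral_congr_fun hGWm fun y hy => ?_
    show v y * pF f y z = v y * g y z
    rw [hg1 y hy]
  have haF : ∀ φ : V d → ℂ, aF G r0 R f φ = fun y => ∫ z, φ z * conj (g y z) ∂mv G := by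
    intro φ
    funext y
    unfold aF
    by_cases hy : y ∈ GW Γ G r0 2 R
    · rw [Set.indicator_of_mem hy]
      refine integral_congr_ae (Eventually.of_forall fun z => ?_)
      show φ z * conj (pF f y z) = φ z * conj (g y z)
      rw [hg1 y hy]
    · rw [Set.indicator_of_notMem hy]
      have h1 : ∀ z, φ z * conj (g y z) = 0 := fun z => by rw [hg0 y hy, map_zero, mul_zero]
      rw [integral_congr_ae (Eventually.of_forall h1), integral_zero]
  refine ⟨fun v hv => ?_, fun φ hφ => ?_, fun φ v hφ hv => ?_⟩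
  · rw [hsF]
    exact AFRD_S hFd hprY h4 hW0 hGWv (fun y hy => hy) hD hG hv
  · rw [haF]
    exact AFRD_Q G hFd hσ hcomp hpres hD hF hG hφ
  · have h1 := AFRD_adj G hFd hcount hσ hcomp hpres hσ' hprY h4 hW0 hGWv (fun y hy => hy) hFm hTm hF hTu hG hφ hv
    rw [hsF, ← h1, haF]
    refine (setIntegral_eq_of_subset_of_forall_sdiff_eq_zero hTm inter_subset_left ?_).symm
    rintro y ⟨hy1, hy2⟩
    have hy3 : y ∉ GW Γ G r0 2 R := fun h => hy2 ⟨hy1, h⟩
    have h2 : ∀ z, φ z * conj (g y z) = 0 := fun z => by rw [hg0 y hy3, map_zero, mul_zero]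
    show (∫ z, φ z * conj (g y z) ∂mv G) * conj (v y) = 0
    rw [integral_congr_ae (Eventually.of_forall h2), integral_zero, zero_mul]

end

end Pool.Agent.VD
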