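import Pool.Agent.helper11.VD.Spec3f

/-!
# Row vd:FPS (MP_07c750_an, project VD): positive probability of small functions
-/

set_option autoImplicit false

open scoped ContDiff Topology InnerProductSpace ENNReal ComplexConjugate
open MeasureTheory Filter Set

namespace Pool.Agent.VD

open Pool.Agent.RPQ (PN PJ UN upd)

noncomputable section

theorem FPS_mono {d : ℕ} {L : Set (V d)} {n : ℕ} {f : V d → ℝ} {a b : ℝ} (h : a ≤ b) (hf : DK L n f a) : DK L n f b :=
  fun g hg => (hf g hg).trans h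

theorem FPS_smul {d : ℕ} {L : Set (V d)} {f : V d → ℝ} (hf : ContDiff ℝ ∞ f) {n : ℕ} {B a : ℝ} (ha : 0 ≤ a) (h : DK L n f B) :
    DK L n (fun z => a * f z) (a * B) := by
  intro x hx
  have h2 : iteratedFDeriv ℝ n (fun z => a * f z) x = a • iteratedFDeriv ℝ n f x := by
    have h3 := iteratedFDeriv_const_smul_apply (𝕜 := ℝ) (i := n) (a := a) (f := f) (x := x)
      ((hf.of_le (by exact_mod_cast le_top)).contDiffAt)
    exact h3
  rw [h2, norm_smul, Real.norm_of_nonneg ha]
  exact mul_le_mul_of_nonneg_left (h x hx) ha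

/-- boxes have positive measure -/
theorem FPS_box (Q : Finset (ℕ × ℕ)) (t : ℝ) (ht : 0 < t) (ht1 : t ≤ 1) : PN {ζ | ∀ q ∈ Q, |ζ q| ≤ t} ≠ 0 := by
  have h1 : {ζ : ℕ × ℕ → ℝ | ∀ q ∈ Q, |ζ q| ≤ t} = Set.pi (Q : Set (ℕ × ℕ)) fun _ => Icc (-t) t := by
    ext ζ
    simp only [mem_ofPred_eq, Set.mem_pi, Finset.mem_coe, mem_Icc, abs_le]
  have h2 : UN (Icc (-t) t) ≠ 0 := by
    unfold UN
    rw [Measure.smul_apply, Measure.restrict_apply measurableSet_Icc, smul_eq_mul,
      inter_eq_left.2 (Icc_subset_Icc (by linarith) ht1), Real.volume_Icc]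
    refine mul_ne_zero (by simp) ?_
    rw [Ne, ENNReal.ofReal_eq_zero, not_le]
    linarith
  rw [h1]
  unfold PN
  rw [Measure.infinitePi_pi _ (fun i _ => measurableSet_Icc)]
  exact Finset.prod_ne_zero_iff.2 fun q _ => h2

theorem FPS_proof (hSRD : SRD_stmt) (hRSM : RPQ.RSM_stmt) : FPS_stmt := by
  intro d J u hu hsum P hP L n0 τ hL hτ
  have hsum' : ∀ L : Set (V d), IsCompact L → ∀ n : ℕ, ∃ c : ℕ → ℝ, Summable c ∧ (∀ k, 0 ≤ c k) ∧
      ∀ (k : ℕ) (ξ : ℕ → ℝ), (∀ j, |ξ j| ≤ 1) → DK L n (fun x => ∑ j ∈ Finset.range (J k), ξ j * u k j x) (c k) := by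
    intro L hL n
    obtain ⟨c, hc, hcb⟩ := hsum L hL n
    exact ⟨fun k => |c k|, hc.abs, fun k => abs_nonneg _, fun k ξ hξ => FPS_mono (le_abs_self _) (hcb k ξ hξ)⟩
  choose c hc hc0 hcb using hsum' L hL
  set D : ℕ → ℝ := fun k => ∑ n ∈ Finset.range (n0 + 1), c n k with hD
  have hdS : Summable D := summable_sum fun n _ => hc n
  have hd0 : ∀ k, 0 ≤ D k := fun k => Finset.sum_nonneg fun n _ => hc0 n k
  have hcd : ∀ n ≤ n0, ∀ k, c n k ≤ D k := fun n hn k =>
    Finset.single_le_sum (f := fun n => c n k) (fun n _ => hc0 n k) (Finset.mem_range.2 (by omega))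
  obtain ⟨K0, hK0⟩ := ((tendsto_sum_nat_add D).eventually_lt_const (half_pos hτ)).exists
  set S : ℝ := ∑' k, D k with hS
  have hS0 : 0 ≤ S := tsum_nonneg hd0
  set t : ℝ := min 1 (τ / (2 * (S + 1))) with ht
  have ht0 : 0 < t := lt_min one_pos (by positivity)
  have htS : t * S ≤ τ / 2 := by
    have h1 : t ≤ τ / (2 * (S + 1)) := min_le_right _ _
    calc t * S ≤ τ / (2 * (S + 1)) * (S + 1) := by
          apply mul_le_mul h1 (by linarith) hS0 (by positivity)
      _ = τ / 2 := by field_simp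
  set Q : Finset (ℕ × ℕ) := (Finset.range K0).sigma (fun k => Finset.range (J k)) |>.image (fun x => (x.1, x.2)) with hQ
  have hQm : ∀ k j, k < K0 → j < J k → (k, j) ∈ Q := by
    intro k j hk hj
    rw [hQ, Finset.mem_image]
    exact ⟨⟨k, j⟩, Finset.mem_sigma.2 ⟨Finset.mem_range.2 hk, Finset.mem_range.2 hj⟩, rfl⟩
  obtain ⟨ζ, hζQ, hζP, hζ1⟩ : ∃ ζ, (∀ q ∈ Q, |ζ q| ≤ t) ∧ P ζ ∧ ∀ q, |ζ q| ≤ 1 := by
    by_contra hno
    refine FPS_box Q t ht0 (min_le_left _ _) (measure_mono_null ?_ (hP.and hRSM.2.1))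
    intro ζ hζ hb
    exact hno ⟨ζ, hζ, hb.1, hb.2⟩
  refine ⟨ζ, hζ1, hζP, ?_⟩
  have hcdk : ∀ (k : ℕ) (ξ : ℕ → ℝ), ContDiff ℝ ∞ (fun z => ∑ j ∈ Finset.range (J k), ξ j * u k j z) := by
    intro k ξ
    exact ContDiff.sum fun j _ => contDiff_const.mul (hu k j)
  have hb : ∀ n k, DK L n (fun z => ∑ j ∈ Finset.range (J k), ζ (k, j) * u k j z) (t * c n k + if k < K0 then 0 else c n k) := by
    intro n k
    by_cases hk : k < K0
    · rw [if_pos hk, add_zero]
      set ξ : ℕ → ℝ := fun j => if j < J k then ζ (k, j) / t else 0 with hξ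
      have h1 : ∀ j, |ξ j| ≤ 1 := by
        intro j
        rw [hξ]
        show |if j < J k then ζ (k, j) / t else 0| ≤ 1
        split_ifs with hj
        · rw [abs_div, abs_of_pos ht0, div_le_one ht0]
          exact hζQ _ (hQm k j hk hj)
        · simp
      have h2 := FPS_smul (hcdk k ξ) ht0.le (hcb n k ξ h1)
      have h3 : (fun z => ∑ j ∈ Finset.range (J k), ζ (k, j) * u k j z) = fun z => t * ∑ j ∈ Finset.range (J k), ξ j * u k j z := by
        funext z
        rw [Finset.mul_sum]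
        refine Finset.sum_congr rfl fun j hj => ?_
        rw [hξ]
        show ζ (k, j) * u k j z = t * ((if j < J k then ζ (k, j) / t else 0) * u k j z)
        rw [if_pos (Finset.mem_range.1 hj)]
        field_simp
      rw [h3]
      exact h2
    · rw [if_neg hk]
      refine FPS_mono ?_ (hcb n k (fun j => ζ (k, j)) (fun j => hζ1 _))
      have := mul_nonneg ht0.le (hc0 n k)
      linarith
  have hs2 : ∀ n, Summable fun k => if k < K0 then 0 else c n k := by
    intro n
    refine Summable.of_nonneg_of_le (fun k => ?_) (fun k => ?_) (hc n)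
    · split_ifs
      · exact le_rfl
      · exact hc0 n k
    · split_ifs
      · exact hc0 n k
      · exact le_rfl
  have hs1 : ∀ n, Summable fun k => t * c n k + if k < K0 then 0 else c n k := fun n => ((hc n).mul_left t).add (hs2 n)
  have hser := hSRD d (fun k z => ∑ j ∈ Finset.range (J k), ζ (k, j) * u k j z) (fun k => hcdk k fun j => ζ (k, j)) (by
    intro L' hL'
    choose c' hc' hc0' hcb' using hsum' L' hL'
    exact ⟨c', hc', fun n k => hcb' n k (fun j => ζ (k, j)) (fun j => hζ1 _)⟩)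
  intro n hn
  have htot : ∑' k, (t * c n k + if k < K0 then 0 else c n k) ≤ τ := by
    rw [Summable.tsum_add ((hc n).mul_left t) (hs2 n), tsum_mul_left]
    have e1 : t * ∑' k, c n k ≤ τ / 2 :=
      (mul_le_mul_of_nonneg_left ((hc n).tsum_le_tsum (hcd n hn) hdS) ht0.le).trans htS
    have e2 : ∑' k, (if k < K0 then 0 else c n k) ≤ τ / 2 := by
      rw [← (hs2 n).sum_add_tsum_nat_add K0]
      have e3 : ∑ i ∈ Finset.range K0, (if i < K0 then 0 else c n i) = 0 :=
        Finset.sum_eq_zero fun i hi => by rw [if_pos (Finset.mem_range.1 hi)]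
      rw [e3, zero_add]
      have e4 : ∀ i, (if i + K0 < K0 then 0 else c n (i + K0)) = c n (i + K0) := fun i => by rw [if_neg (by omega)]
      simp only [e4]
      exact (((summable_nat_add_iff K0).2 (hc n)).tsum_le_tsum (fun i => hcd n hn (i + K0)) ((summable_nat_add_iff K0).2 hdS)).trans hK0.le
    linarith
  intro x hx
  rw [hser.2.2 x n]
  exact (tsum_of_norm_bounded (hs1 n).hasSum (fun k => hb n k x hx)).trans htot

end

end Pool.Agent.VD
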