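import Pool.Agent.helper11.VD.Spec3e
import Pool.Agent.helper32.VD.AMVI

/-!
# Row vd:FTR (MP_07c750_an, project VD): arbitrary fundamental domains
-/

set_option autoImplicit false

open scoped ContDiff Topology InnerProductSpace ENNReal ComplexConjugate
open MeasureTheory Filter Set

namespace Pool.Agent.VD

noncomputable section

theorem FTR_int {d : ℕ} (G : V d → V d →L[ℝ] V d) (hc : Continuous (dens G)) (hp : ∀ x, 0 < dens G x) (F : Set (V d)) (g : V d → ℝ) :
    ∫ x in F, g x * dens G x = ∫ x in F, g x ∂mv G := by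
  unfold mv
  rw [restrict_withDensity']
  have h1 : (fun x => ENNReal.ofReal (dens G x)) = fun x => ((Real.toNNReal (dens G x) : NNReal) : ENNReal) := rfl
  rw [h1, integral_withDensity_eq_integral_smul (hc.measurable.real_toNNReal)]
  refine integral_congr_ae (Filter.Eventually.of_forall fun x => ?_)
  simp only [NNReal.smul_def, Real.coe_toNNReal _ (hp x).le, smul_eq_mul, mul_comm]

theorem FTR_proof : FTR_stmt := by
  intro d Γ _ _ K F0 F G hK hX hG hi hF
  obtain ⟨hd, hp⟩ := AMVI_dens G hG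
  have hcnt : Countable Γ := AMVI_countable hK
  have key : ∀ g : V d → ℝ, Inv Γ g → ∫ x in F, g x * dens G x = ∫ x in F0, g x * dens G x := by
    intro g hg
    rw [FTR_int G hd.continuous hp, FTR_int G hd.continuous hp]
    have hm1 : MeasurableConstSMul Γ (V d) := ⟨fun γ => (hK.smooth γ).continuous.measurable⟩
    have hm2 : SMulInvariantMeasure Γ (V d) (mv G) :=
      ⟨fun γ s hs => (AMVI_mp G hK.smooth hi γ).measure_preimage hs.nullMeasurableSet⟩
    have h1 : IsFundamentalDomain Γ F (mv G) := hF.mono (withDensity_absolutelyContinuous _ _)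
    have h2 : IsFundamentalDomain Γ F0 (mv G) := IsFundamentalDomain.mk' hX.meas.nullMeasurableSet hX.uniq
    exact h1.setIntegral_eq h2 hg
  refine ⟨key, ?_⟩
  intro hQ h hh hhi ε hε
  obtain ⟨μ₀, hμ⟩ := hQ h hh hhi ε hε
  refine ⟨μ₀, fun μ φ h1 h2 => ?_⟩
  have e1 := key (fun x => h x * ‖φ x‖ ^ 2) (fun γ x => by
    show h (γ • x) * ‖φ (γ • x)‖ ^ 2 = h x * ‖φ x‖ ^ 2
    rw [hhi γ x, h2.2.1 γ x])
  have e2 := key h hhi
  have e3 := key (fun _ => (1 : ℝ)) (fun γ x => rfl)
  have e4 := key (fun x => ‖φ x‖ ^ 2) (fun γ x => by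
    show ‖φ (γ • x)‖ ^ 2 = ‖φ x‖ ^ 2
    rw [h2.2.1 γ x])
  simp only [one_mul] at e3
  rw [e1, e2, e3, e4]
  exact hμ μ φ h1 h2

end

end Pool.Agent.VD
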