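import Pool.Agent.helper80.VD.SpecF

/-! Row vd:GXH (MP_07c750). -/

set_option autoImplicit false

open scoped ContDiff Topology InnerProductSpace
open MeasureTheory Filter Set

namespace Pool.Agent.VD

noncomputable section

/-- the derivative of the Hamiltonian -/
def GXH_D {d : ℕ} (G : V d → V d →L[ℝ] V d) (p q : P d) : ℝ :=
  ⟪fderiv ℝ (IG G) p.1 q.1 p.2, p.2⟫_ℝ / 2 + ⟪IG G p.1 p.2, q.2⟫_ℝ

lemma GXH_smooth {d : ℕ} (G : V d → V d →L[ℝ] V d) (h : ContDiff ℝ ∞ (IG G)) :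
    ContDiff ℝ ∞ (Ham G) := by
  have h1 : ContDiff ℝ ∞ (fun p : P d => IG G p.1) := h.comp contDiff_fst
  have h2 : ContDiff ℝ ∞ (fun p : P d => IG G p.1 p.2) := h1.clm_apply contDiff_snd
  exact (h2.inner ℝ contDiff_snd).div_const 2

lemma GXH_deriv {d : ℕ} (G : V d → V d →L[ℝ] V d) (h : ContDiff ℝ ∞ (IG G))
    (hs : ∀ x u v, ⟪IG G x u, v⟫_ℝ = ⟪u, IG G x v⟫_ℝ) (p q : P d) :
    fderiv ℝ (Ham G) p q = GXH_D G p q := by
  have h0 : HasFDerivAt (IG G) (fderiv ℝ (IG G) p.1) p.1 :=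
    (h.differentiable (by simp) p.1).hasFDerivAt
  have h1 : HasFDerivAt (fun p : P d => IG G p.1)
      ((fderiv ℝ (IG G) p.1).comp (ContinuousLinearMap.fst ℝ (V d) (V d))) p :=
    HasFDerivAt.comp (f := fun p : P d => p.1) p h0 hasFDerivAt_fst
  have h2 := h1.clm_apply (hasFDerivAt_snd (𝕜 := ℝ) (p := p))
  have h3 := (h2.inner ℝ (hasFDerivAt_snd (𝕜 := ℝ) (p := p))).const_mul (2 : ℝ)⁻¹
  have e : Ham G = fun t : P d => (2 : ℝ)⁻¹ * ⟪IG G t.1 t.2, t.2⟫_ℝ := by
    funext t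
    unfold Ham
    ring
  rw [← e] at h3
  rw [h3.fderiv]
  simp only [GXH_D, ContinuousLinearMap.smul_apply, ContinuousLinearMap.comp_apply,
    ContinuousLinearMap.add_apply, fderivInnerCLM_apply, ContinuousLinearMap.prod_apply,
    ContinuousLinearMap.coe_fst', ContinuousLinearMap.coe_snd', ContinuousLinearMap.flip_apply]
  rw [inner_add_left, hs p.1 q.2 p.2, real_inner_comm (IG G p.1 p.2) q.2]
  simp only [smul_eq_mul]
  ring

lemma GXH_slice {d : ℕ} (G : V d → V d →L[ℝ] V d) (h : ContDiff ℝ ∞ (IG G)) (p : P d) :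
    fderiv ℝ (fun y => Ham G (y, p.2)) p.1 =
      (fderiv ℝ (Ham G) p).comp (ContinuousLinearMap.inl ℝ (V d) (V d)) := by
  have h1 : HasFDerivAt (Ham G) (fderiv ℝ (Ham G) p) p :=
    ((GXH_smooth G h).differentiable (by simp) p).hasFDerivAt
  have h2 : HasFDerivAt (fun y : V d => (y, p.2)) (ContinuousLinearMap.inl ℝ (V d) (V d)) p.1 :=
    hasFDerivAt_prodMk_left p.1 p.2
  have h3 : HasFDerivAt (fun y => Ham G (y, p.2))
      ((fderiv ℝ (Ham G) p).comp (ContinuousLinearMap.inl ℝ (V d) (V d))) p.1 :=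
    HasFDerivAt.comp (g := Ham G) (f := fun y : V d => (y, p.2)) p.1 h1 h2
  exact h3.fderiv

/-- the Riesz isomorphism as a real continuous linear map -/
def GXH_T (d : ℕ) : StrongDual ℝ (V d) →L[ℝ] V d where
  toFun L := (InnerProductSpace.toDual ℝ (V d)).symm L
  map_add' a b := map_add _ a b
  map_smul' c a := by
    rw [map_smulₛₗ]
    simp
  cont := (InnerProductSpace.toDual ℝ (V d)).symm.continuous

/-- the linear map which sends the derivative to the Hamiltonian vector -/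
def GXH_G (d : ℕ) : StrongDual ℝ (P d) →L[ℝ] P d :=
  ((GXH_T d).comp ((ContinuousLinearMap.compL ℝ (V d) (P d) ℝ).flip
      (ContinuousLinearMap.inr ℝ (V d) (V d)))).prod
    (-((GXH_T d).comp ((ContinuousLinearMap.compL ℝ (V d) (P d) ℝ).flip
      (ContinuousLinearMap.inl ℝ (V d) (V d)))))

lemma GXH_eq {d : ℕ} (H : P d → ℝ) : CRO.hvf H = GXH_G d ∘ fderiv ℝ H := by
  funext z
  rfl

theorem GXH_proof (hGIN : GIN_stmt) : GXH_stmt := by
  intro d G hG
  obtain ⟨-, hs, hpos, hsm, -⟩ := hGIN d G hG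
  have hH := GXH_smooth G hsm
  have hD := GXH_deriv G hsm hs
  have hX2 : ∀ (p : P d) (w : V d), ⟪(XH G p).2, w⟫_ℝ =
      -(⟪fderiv ℝ (IG G) p.1 w p.2, p.2⟫_ℝ / 2) := by
    intro p w
    have e1 : (XH G p).2 = -gradient (fun y => Ham G (y, p.2)) p.1 := rfl
    rw [e1, inner_neg_left, gradient, InnerProductSpace.toDual_symm_apply, GXH_slice G hsm p]
    rw [ContinuousLinearMap.comp_apply, ContinuousLinearMap.inl_apply, hD]
    unfold GXH_D
    simp only [inner_zero_right, add_zero]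
  have hF : ∀ p q : P d, fderiv ℝ (Ham G) p q = ⟪vel G p, q.2⟫_ℝ - ⟪(XH G p).2, q.1⟫_ℝ := by
    intro p q
    rw [hD, hX2]
    unfold GXH_D vel
    ring
  have hE : XH G = CRO.hvf (Ham G) := by
    funext p
    refine Prod.ext ?_ ?_
    · show vel G p = (InnerProductSpace.toDual ℝ (V d)).symm
        ((fderiv ℝ (Ham G) p).comp (ContinuousLinearMap.inr ℝ (V d) (V d)))
      refine ext_inner_right ℝ fun w => ?_
      rw [InnerProductSpace.toDual_symm_apply, ContinuousLinearMap.comp_apply,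
        ContinuousLinearMap.inr_apply, hF]
      simp only [inner_zero_right, sub_zero]
    · show -gradient (fun y => Ham G (y, p.2)) p.1 = -(InnerProductSpace.toDual ℝ (V d)).symm
        ((fderiv ℝ (Ham G) p).comp (ContinuousLinearMap.inl ℝ (V d) (V d)))
      rw [gradient, GXH_slice G hsm p]
  refine ⟨hH, ?_, hE, ?_, hX2, hF, ?_⟩
  · rw [hE, GXH_eq]
    exact (GXH_G d).contDiff.comp (hH.fderiv_right (by simp))
  · intro p
    have h0 : 0 ≤ ⟪IG G p.1 p.2, p.2⟫_ℝ := by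
      by_cases h : p.2 = 0
      · rw [h]; simp
      · exact (hpos p.1 p.2 h).le
    unfold nrm Ham
    rw [Real.sq_sqrt h0]
    ring
  · intro p
    rw [hF]
    have e1 : (XH G p).1 = vel G p := rfl
    rw [e1, real_inner_comm]
    ring

end

end Pool.Agent.VD
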