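import Pool.Agent.helper84.VD.SpecB5

/-!
# Row vd:KUB (MP_07c750_an, project VD): the density of the big step
-/

set_option autoImplicit false

open scoped ContDiff Topology InnerProductSpace ENNReal
open MeasureTheory Filter Set

namespace Pool.Agent.VD

noncomputable section

theorem KUB_bx {d : ℕ} {Γ : Type} [Group Γ] [MulAction Γ (V d)] (hGLF : GLF_stmt) (hK : ∀ γ : Γ, ContDiff ℝ ∞ fun x : V d => γ • x)
    (G : V d → V d →L[ℝ] V d) (Φ : ℝ → P d → P d) (hΦ : IsFlow G Φ) (γ : Γ) (t : ℝ) (p : P d) :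
    fderiv ℝ (fun q => lft γ (Φ t q)) p = (fderiv ℝ (MM Φ γ) (t, p)).comp (ContinuousLinearMap.inr ℝ ℝ (P d)) := by
  obtain ⟨-, -, hsm, -⟩ := hGLF d Γ hK
  have h1 : ContDiff ℝ ∞ (MM Φ γ) := (hsm γ).comp hΦ.smooth
  have h2 : HasFDerivAt (MM Φ γ) (fderiv ℝ (MM Φ γ) (t, p)) (t, p) := ((h1.differentiable (by simp)) (t, p)).hasFDerivAt
  have h3 : HasFDerivAt (fun q : P d => (t, q)) (ContinuousLinearMap.inr ℝ ℝ (P d)) p := hasFDerivAt_prodMk_right t p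
  exact (h2.comp p h3).fderiv

theorem KUB_symp {d : ℕ} {Γ : Type} [Group Γ] [MulAction Γ (V d)] (hGLF : GLF_stmt) (hGSY : GSY_stmt) (hK : ∀ γ : Γ, ContDiff ℝ ∞ fun x : V d => γ • x)
    (G : V d → V d →L[ℝ] V d) (Φ : ℝ → P d → P d) (hG : IsMetric G) (hΦ : IsFlow G Φ) (γ : Γ) (t : ℝ) (p v w : P d) :
    omg (fderiv ℝ (fun q => lft γ (Φ t q)) p v) (fderiv ℝ (fun q => lft γ (Φ t q)) p w) = omg v w := by
  obtain ⟨-, -, hsm, -, -, -, hom, -⟩ := hGLF d Γ hK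
  have h1 : ContDiff ℝ ∞ (fun q => Φ t q) := hΦ.smooth.comp (contDiff_prodMk_right t)
  have h2 : HasFDerivAt (fun q => Φ t q) (fderiv ℝ (Φ t) p) p := ((h1.differentiable (by simp)) p).hasFDerivAt
  have h3 : HasFDerivAt (lft γ : P d → P d) (fderiv ℝ (lft γ : P d → P d) (Φ t p)) (Φ t p) :=
    (((hsm γ).differentiable (by simp)) (Φ t p)).hasFDerivAt
  have h4 : fderiv ℝ (fun q => lft γ (Φ t q)) p = (fderiv ℝ (lft γ : P d → P d) (Φ t p)).comp (fderiv ℝ (Φ t) p) :=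
    (h3.comp p h2).fderiv
  rw [h4]
  simp only [ContinuousLinearMap.comp_apply]
  rw [hom, (hGSY d G Φ hG hΦ).1]

theorem KUB_proof (hA9DD : A9DD_stmt) (hYDB : YDB_stmt) (hGLF : GLF_stmt) (hGSY : GSY_stmt) : KUB_stmt := by
  intro d Γ _ _ K k B r0 χ hK hχ
  obtain ⟨C, hC, h1⟩ := hA9DD d Γ K k B r0 χ hK hχ
  refine ⟨C, hC, fun ch A hch hA => ?_⟩
  obtain ⟨R0, hR0, h2⟩ := h1 ch A hch hA
  refine ⟨R0, hR0, fun R G Φ y y' hR hG hΦ hy => ?_⟩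
  have h3 := h2 R G Φ y y' hR ⟨hK, hG, hΦ⟩ hy
  have hγ : (y.1⁻¹ * y'.1)⁻¹ = y'.1⁻¹ * y.1 := by group
  rw [hγ] at h3
  refine le_trans (mul_le_mul_of_nonneg_left ?_ (sq_nonneg _)) h3
  have h4 := hYDB d (fun q => lft (y'.1⁻¹ * y.1) (Φ (A.tu R) q)) y.2
    (fun v w => KUB_symp hGLF hGSY hK.smooth G Φ hG.met hΦ _ _ _ v w)
  rw [KUB_bx hGLF hK.smooth G Φ hΦ] at h4
  exact h4

end

end Pool.Agent.VD
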